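import Pool.Agent.Helper154_Diamond.Defs

/-!
Closed unbounded and stationary subsets of an ordinal, in elementary terms, and the standard
facts about them at a regular uncountable cardinal.
-/

open Ordinal Cardinal Set Order

universe u

namespace Pool.Agent.Helper154_Diamond

theorem StatIn.mono {S T : Set Ordinal.{u}} {δ : Ordinal.{u}} (hS : StatIn S δ)
    (hST : ∀ α ∈ S, α < δ → α ∈ T) : StatIn T δ := by
  intro C hC
  obtain ⟨α, hα, hαC⟩ := hS C hC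
  exact ⟨α, hST α hα (hC.1 hαC), hαC⟩

/-- A bound for the values of `h` below `o`. -/
noncomputable def bd (h : Ordinal.{u} → Ordinal.{u}) (o : Ordinal.{u}) : Ordinal.{u} :=
  ⨆ i : Iio o, (h i + 1)

theorem lt_bd (h : Ordinal.{u} → Ordinal.{u}) {o β : Ordinal.{u}} (hβ : β < o) :
    h β < bd h o := by
  have := Ordinal.lt_iSup_add_one (f := fun i : Iio o => h i) ⟨β, hβ⟩
  simpa [bd] using this

theorem bd_lt {c : Cardinal.{u}} (hc : c.IsRegular) {h : Ordinal.{u} → Ordinal.{u}}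
    {o : Ordinal.{u}} (ho : o < c.ord) (hh : ∀ β < o, h β < c.ord) : bd h o < c.ord := by
  unfold bd
  apply Ordinal.lift_iSup_add_one_lt_of_lt_cof
  · rw [← Ordinal.lift_cof, hc.cof_ord, Cardinal.mk_Iio_ordinal, Cardinal.lift_lift, Cardinal.lift_lt,
      ← Cardinal.lt_ord]
    exact ho
  · intro i
    exact hh i i.2

theorem add_one_lt_ord {c : Cardinal.{u}} (hc : c.IsRegular) {o : Ordinal.{u}}
    (ho : o < c.ord) : o + 1 < c.ord :=
  (isSuccLimit_ord hc.aleph0_le).add_one_lt ho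

/-- The closure points of a function form a club. -/
theorem club_closure {c : Cardinal.{u}} (hc : c.IsRegular) (hω : ℵ₀ < c)
    {h : Ordinal.{u} → Ordinal.{u}} (hh : ∀ β < c.ord, h β < c.ord) :
    ClubIn {α | α < c.ord ∧ ∀ β < α, h β < α} c.ord := by
  refine ⟨fun α hα => hα.1, ?_, ?_⟩
  · intro β0 hβ0
    set g : Ordinal.{u} → Ordinal.{u} := fun o => max (bd h o) (o + 1) with hg
    have hg' : ∀ o < c.ord, g o < c.ord := by
      intro o ho
      exact max_lt (bd_lt hc ho (fun β hβ => hh β (hβ.trans ho))) (add_one_lt_ord hc ho)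
    refine ⟨nfp g (β0 + 1), ⟨nfp_lt_ord_of_isRegular hc hω.ne' hg' (add_one_lt_ord hc hβ0), ?_⟩, ?_⟩
    · intro β hβ
      obtain ⟨n, hn⟩ := Ordinal.lt_nfp_iff.1 hβ
      have h1 : h β < g^[n + 1] (β0 + 1) := by
        rw [Function.iterate_succ_apply']
        exact (lt_bd h hn).trans_le (le_max_left _ _)
      exact Ordinal.lt_nfp_iff.2 ⟨n + 1, h1⟩
    · exact Ordinal.lt_nfp_iff.2 ⟨0, by simp⟩
  · intro β hβ _ hlim
    refine ⟨hβ, fun ε hε => ?_⟩
    obtain ⟨γ, hγ, hεγ, hγβ⟩ := hlim ε hε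
    exact (hγ.2 ε hεγ).trans hγβ

/-- Diagonal intersections of clubs are clubs. -/
theorem club_diag {c : Cardinal.{u}} (hc : c.IsRegular) (hω : ℵ₀ < c)
    {C : Ordinal.{u} → Set Ordinal.{u}} (hC : ∀ i < c.ord, ClubIn (C i) c.ord) :
    ClubIn {α | α < c.ord ∧ ∀ i < α, α ∈ C i} c.ord := by
  have hnx : ∀ i β : Ordinal.{u}, ∃ γ, i < c.ord → β < c.ord → γ ∈ C i ∧ β < γ := by
    intro i β
    by_cases hi : i < c.ord
    · by_cases hβ : β < c.ord
      · obtain ⟨γ, hγ, hβγ⟩ := (hC i hi).2.1 β hβ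
        exact ⟨γ, fun _ _ => ⟨hγ, hβγ⟩⟩
      · exact ⟨0, fun _ h => absurd h hβ⟩
    · exact ⟨0, fun h => absurd h hi⟩
  choose nx hnx using hnx
  set h : Ordinal.{u} → Ordinal.{u} := fun β => bd (fun i => nx i β) (β + 1) with hh
  have hh' : ∀ β < c.ord, h β < c.ord := by
    intro β hβ
    refine bd_lt hc (add_one_lt_ord hc hβ) ?_
    intro i hi
    have hi' : i < c.ord := hi.trans (add_one_lt_ord hc hβ)
    exact (hC i hi').1 (hnx i β hi' hβ).1
  have hcl := club_closure hc hω hh'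
  refine ⟨fun α hα => hα.1, ?_, ?_⟩
  · intro β hβ
    obtain ⟨α, ⟨hα, hαc⟩, hβα⟩ := hcl.2.1 β hβ
    refine ⟨α, ⟨hα, ?_⟩, hβα⟩
    intro i hi
    refine (hC i (hi.trans hα)).2.2 α hα (ne_bot_of_gt hi) ?_
    intro ε hε
    have hm : max i ε < α := max_lt hi hε
    obtain ⟨h1, h2⟩ := hnx i (max i ε) (hi.trans hα) (hm.trans hα)
    refine ⟨nx i (max i ε), h1, (le_max_right _ _).trans_lt h2, ?_⟩
    refine lt_trans ?_ (hαc (max i ε) hm)
    exact lt_bd (fun j => nx j (max i ε)) (lt_of_le_of_lt (le_max_left i ε) (lt_add_one _))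
  · intro β hβ _ hlim
    refine ⟨hβ, fun i hi => ?_⟩
    refine (hC i (hi.trans hβ)).2.2 β hβ (ne_bot_of_gt hi) ?_
    intro ε hε
    obtain ⟨γ, hγ, hεγ, hγβ⟩ := hlim (max i ε) (max_lt hi hε)
    exact ⟨γ, hγ.2 i ((le_max_left _ _).trans_lt hεγ), (le_max_right _ _).trans_lt hεγ, hγβ⟩

theorem one_lt_ord {c : Cardinal.{u}} (hc : c.IsRegular) : (1 : Ordinal.{u}) < c.ord := by
  simpa using add_one_lt_ord hc hc.ord_pos

theorem club_inter {c : Cardinal.{u}} (hc : c.IsRegular) (hω : ℵ₀ < c)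
    {C D : Set Ordinal.{u}} (hC : ClubIn C c.ord) (hD : ClubIn D c.ord) :
    ClubIn (C ∩ D) c.ord := by
  classical
  have h1 : ClubIn {α | α < c.ord ∧ ∀ i < α, α ∈ (if i = 0 then C else D)} c.ord := by
    refine club_diag hc hω ?_
    intro i _
    by_cases hi : i = 0
    · simpa [hi] using hC
    · simpa [hi] using hD
  refine ⟨fun α hα => hC.1 hα.1, ?_, ?_⟩
  · intro β hβ
    obtain ⟨α, ⟨hα, hαc⟩, hβα⟩ := h1.2.1 (max β 1) (max_lt hβ (one_lt_ord hc))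
    refine ⟨α, ⟨?_, ?_⟩, (le_max_left _ _).trans_lt hβα⟩
    · simpa using hαc 0 (lt_of_le_of_lt zero_le hβα)
    · simpa using hαc 1 ((le_max_right _ _).trans_lt hβα)
  · intro β hβ h0 hlim
    refine ⟨hC.2.2 β hβ h0 fun ε hε => ?_, hD.2.2 β hβ h0 fun ε hε => ?_⟩
    · obtain ⟨γ, hγ, h2, h3⟩ := hlim ε hε
      exact ⟨γ, hγ.1, h2, h3⟩
    · obtain ⟨γ, hγ, h2, h3⟩ := hlim ε hε
      exact ⟨γ, hγ.2, h2, h3⟩

theorem StatIn.inter_club {c : Cardinal.{u}} (hc : c.IsRegular) (hω : ℵ₀ < c)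
    {S C : Set Ordinal.{u}} (hS : StatIn S c.ord) (hC : ClubIn C c.ord) :
    StatIn (S ∩ C) c.ord := by
  intro D hD
  obtain ⟨α, hαS, hα⟩ := hS _ (club_inter hc hω hC hD)
  exact ⟨α, ⟨hαS, hα.1⟩, hα.2⟩

/-- The final segments of a limit ordinal are clubs. -/
theorem club_tail {δ ε : Ordinal.{u}} (hδ : IsSuccLimit δ) (hε : ε < δ) :
    ClubIn {α | ε < α ∧ α < δ} δ := by
  refine ⟨fun α hα => hα.2, ?_, ?_⟩
  · intro β hβ
    refine ⟨max ε β + 1, ⟨?_, hδ.add_one_lt (max_lt hε hβ)⟩, ?_⟩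
    · exact (le_max_left _ _).trans_lt (lt_add_one _)
    · exact (le_max_right _ _).trans_lt (lt_add_one _)
  · intro β hβ h0 hlim
    obtain ⟨γ, hγ, _, h3⟩ := hlim 0 (pos_iff_ne_zero.2 h0)
    exact ⟨hγ.1.trans h3, hβ⟩

theorem StatIn.unbounded {S : Set Ordinal.{u}} {δ ε : Ordinal.{u}} (hδ : IsSuccLimit δ)
    (hS : StatIn S δ) (hε : ε < δ) : ∃ α ∈ S, ε < α ∧ α < δ := by
  obtain ⟨α, hα, h1⟩ := hS _ (club_tail hδ hε)
  exact ⟨α, hα, h1⟩

/-- Fodor's lemma. -/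
theorem fodor {c : Cardinal.{u}} (hc : c.IsRegular) (hω : ℵ₀ < c)
    {S : Set Ordinal.{u}} (hS : StatIn S c.ord) {f : Ordinal.{u} → Ordinal.{u}}
    (hf : ∀ α ∈ S, f α < α) : ∃ γ < c.ord, StatIn {α | α ∈ S ∧ f α = γ} c.ord := by
  by_contra hcon
  push Not at hcon
  have h1 : ∀ γ : Ordinal.{u}, ∃ C, γ < c.ord → ClubIn C c.ord ∧
      ¬ ({α | α ∈ S ∧ f α = γ} ∩ C).Nonempty := by
    intro γ
    by_cases hγ : γ < c.ord
    · have := hcon γ hγ
      unfold StatIn at this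
      push Not at this
      obtain ⟨C, hC, hC'⟩ := this
      refine ⟨C, fun _ => ⟨hC, ?_⟩⟩
      rw [Set.not_nonempty_iff_eq_empty]
      exact hC'
    · exact ⟨∅, fun h => absurd h hγ⟩
  choose C hC using h1
  obtain ⟨α, hαS, hα, hαC⟩ := hS _ (club_diag hc hω (fun i hi => (hC i hi).1))
  have h2 : f α < α := hf α hαS
  exact (hC (f α) (h2.trans hα)).2 ⟨α, ⟨hαS, rfl⟩, hαC _ h2⟩

theorem isSuccLimit_of_cof {α : Ordinal.{u}} (h : α.cof = ℵ₀) : IsSuccLimit α := by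
  rw [← Ordinal.one_lt_cof_iff, h]
  exact one_lt_aleph0

theorem stat_cofOmega {c : Cardinal.{u}} (hc : c.IsRegular) (hω : ℵ₀ < c) :
    StatIn (CofOmega c.ord) c.ord := by
  intro C hC
  have h1 : ∀ β : Ordinal.{u}, ∃ γ, β < c.ord → γ ∈ C ∧ β < γ := by
    intro β
    by_cases hβ : β < c.ord
    · obtain ⟨γ, hγ, hβγ⟩ := hC.2.1 β hβ
      exact ⟨γ, fun _ => ⟨hγ, hβγ⟩⟩
    · exact ⟨0, fun h => absurd h hβ⟩
  choose nx hnx using h1
  set a : ℕ → Ordinal.{u} := fun n => nx^[n + 1] 0 with ha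
  have ha0 : ∀ n, nx^[n] 0 < c.ord := by
    intro n
    induction n with
    | zero => simpa using hc.ord_pos
    | succ n ih =>
      rw [Function.iterate_succ_apply']
      exact hC.1 (hnx _ ih).1
  have haC : ∀ n, a n ∈ C := by
    intro n
    simp only [ha, Function.iterate_succ_apply']
    exact (hnx _ (ha0 n)).1
  have hmono : StrictMono a := by
    refine strictMono_nat_of_lt_succ fun n => ?_
    simp only [ha]
    rw [Function.iterate_succ_apply' nx (n + 1)]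
    exact (hnx _ (ha0 (n + 1))).2
  have hsup : (⨆ n, a n) < c.ord := by
    apply Ordinal.lift_iSup_lt_of_lt_cof
    · rw [← Ordinal.lift_cof, hc.cof_ord]
      simpa using hω
    · intro n
      exact ha0 (n + 1)
  have hcof : (⨆ n, a n).cof = ℵ₀ := by
    have := Ordinal.lift_cof_iSup hmono
    simpa using this
  have hlim := isSuccLimit_of_cof hcof
  refine ⟨⨆ n, a n, ⟨hsup, hcof⟩, hC.2.2 _ hsup hlim.ne_bot ?_⟩
  intro ε hε
  obtain ⟨n, hn⟩ := (Ordinal.lt_iSup_iff).1 hε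
  refine ⟨a n, haC n, hn, ?_⟩
  exact (hmono (Nat.lt_succ_self n)).trans_le (Ordinal.le_iSup a (n + 1))

/-- An ordinal of countable cofinality is the supremum of a sequence below it. -/
theorem exists_seq {α : Ordinal.{u}} (h : α.cof = ℵ₀) :
    ∃ f : ℕ → Ordinal.{u}, (∀ n, f n < α) ∧ ∀ β < α, ∃ n, β ≤ f n := by
  obtain ⟨s, hs, hs'⟩ := Order.exists_cof_eq (Iio α)
  rw [Ordinal.cof_Iio, ← Ordinal.lift_cof, h, Cardinal.lift_aleph0] at hs'
  have hcount : s.Countable := by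
    rw [← Set.countable_coe_iff, ← Cardinal.mk_le_aleph0_iff]
    exact hs'.le
  have hpos : (0 : Ordinal.{u}) < α := (isSuccLimit_of_cof h).bot_lt
  have hne : s.Nonempty := by
    obtain ⟨b, hb, _⟩ := hs ⟨0, hpos⟩
    exact ⟨b, hb⟩
  obtain ⟨f, hf⟩ := hcount.exists_eq_range hne
  refine ⟨fun n => (f n : Ordinal.{u}), fun n => (f n).2, fun β hβ => ?_⟩
  obtain ⟨b, hb, hβb⟩ := hs ⟨β, hβ⟩
  rw [hf] at hb
  obtain ⟨n, rfl⟩ := hb
  exact ⟨n, hβb⟩

/-- Countably many clubs: a club all of whose limit elements belong to all of them. -/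
theorem club_nat {c : Cardinal.{u}} (hc : c.IsRegular) (hω : ℵ₀ < c)
    {C : ℕ → Set Ordinal.{u}} (hC : ∀ n, ClubIn (C n) c.ord) :
    ∃ D, ClubIn D c.ord ∧ ∀ α ∈ D, IsSuccLimit α → ∀ n, α ∈ C n := by
  refine ⟨_, club_diag hc hω (C := fun i => C (Function.invFun (fun n : ℕ => (n : Ordinal.{u})) i))
    (fun i _ => hC _), ?_⟩
  rintro α ⟨_, hα⟩ hlim n
  have h1 : (n : Ordinal.{u}) < α := by
    refine lt_of_lt_of_le (Ordinal.natCast_lt_omega0 n) ?_
    exact Ordinal.omega0_le_of_isSuccLimit hlim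
  have h2 := hα n h1
  rwa [Function.leftInverse_invFun Nat.cast_injective n] at h2

/-- Solovay splitting of the set of ordinals of countable cofinality: a regressive function with
stationary fibres over an unbounded set. -/
theorem exists_split_fun {c : Cardinal.{u}} (hc : c.IsRegular) (hω : ℵ₀ < c) :
    ∃ f : Ordinal.{u} → Ordinal.{u}, ∀ η < c.ord, ∃ γ, η ≤ γ ∧ γ < c.ord ∧
      StatIn {α | α ∈ CofOmega c.ord ∧ f α = γ} c.ord := by
  have h1 : ∀ α : Ordinal.{u}, ∃ f : ℕ → Ordinal.{u}, α.cof = ℵ₀ →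
      (∀ n, f n < α) ∧ ∀ β < α, ∃ n, β ≤ f n := by
    intro α
    by_cases h : α.cof = ℵ₀
    · obtain ⟨f, hf⟩ := exists_seq h
      exact ⟨f, fun _ => hf⟩
    · exact ⟨fun _ => 0, fun h' => absurd h' h⟩
  choose f hf using h1
  have h2 : ∃ n, ∀ η < c.ord, StatIn {α | α ∈ CofOmega c.ord ∧ η ≤ f α n} c.ord := by
    by_contra hcon
    push Not at hcon
    choose η hη hcon using hcon
    have h3 : ∀ n, ∃ C, ClubIn C c.ord ∧
        ({α | α ∈ CofOmega c.ord ∧ η n ≤ f α n} ∩ C) = ∅ := by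
      intro n
      have := hcon n
      unfold StatIn at this
      push Not at this
      exact this
    choose C hC hC' using h3
    obtain ⟨D, hD, hD'⟩ := club_nat hc hω hC
    have hsup : (⨆ n, (η n + 1)) < c.ord := by
      apply Ordinal.lift_iSup_add_one_lt_of_lt_cof
      · rw [← Ordinal.lift_cof, hc.cof_ord]
        simpa using hω
      · intro n
        exact hη n
    obtain ⟨α, ⟨hα1, hα2⟩, hαD, hα3⟩ := (stat_cofOmega hc hω).inter_club hc hω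
      (club_tail (isSuccLimit_ord hc.aleph0_le) hsup) D hD |>.imp fun α h =>
        show (α ∈ CofOmega c.ord ∧ α ∈ {α | (⨆ n, (η n + 1)) < α ∧ α < c.ord}) ∧ α ∈ D ∧ True from
          ⟨h.1, h.2, trivial⟩
    obtain ⟨n, hn⟩ := (hf α hα1.2).2 (⨆ n, (η n + 1)) hα2.1
    have h4 : η n ≤ f α n := by
      refine le_trans ?_ hn
      exact (Ordinal.lt_iSup_add_one (f := η) n).le
    have h5 : α ∈ ({α | α ∈ CofOmega c.ord ∧ η n ≤ f α n} ∩ C n) :=
      ⟨⟨hα1, h4⟩, hD' α hαD (isSuccLimit_of_cof hα1.2) n⟩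
    rw [hC'] at h5
    exact h5
  obtain ⟨n, hn⟩ := h2
  refine ⟨fun α => f α n, fun η hη => ?_⟩
  obtain ⟨γ, hγ, hγS⟩ := fodor hc hω (hn η hη) (f := fun α => f α n)
    (fun α hα => (hf α hα.1.2).1 n)
  refine ⟨γ, ?_, hγ, hγS.mono fun α hα _ => ⟨hα.1.1, hα.2⟩⟩
  obtain ⟨α, hα, _⟩ := hγS.unbounded (isSuccLimit_ord hc.aleph0_le) hc.ord_pos
  rw [← hα.2]
  exact hα.1.2

/-- There is a family of pairwise disjoint stationary sets of ordinals of countable cofinality,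
indexed by the ordinals below `c.ord`. -/
theorem exists_split {c : Cardinal.{u}} (hc : c.IsRegular) (hω : ℵ₀ < c) :
    ∃ T : Ordinal.{u} → Set Ordinal.{u}, (∀ ξ < c.ord, StatIn (T ξ) c.ord) ∧
      (∀ ξ, T ξ ⊆ CofOmega c.ord) ∧
      ∀ ξ < c.ord, ∀ ζ < c.ord, ξ ≠ ζ → Disjoint (T ξ) (T ζ) := by
  obtain ⟨f, hf⟩ := exists_split_fun hc hω
  set Γ : Set Ordinal.{u} := {γ | γ < c.ord ∧ StatIn {α | α ∈ CofOmega c.ord ∧ f α = γ} c.ord}
    with hΓ
  have h1 : #(Iio c.ord) ≤ #Γ := by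
    rw [Cardinal.mk_Iio_ordinal, Cardinal.card_ord]
    by_contra hcon
    push Not at hcon
    have h2 : sSup ((· + 1) '' Γ) < c.ord := by
      apply Ordinal.sSup_add_one_lt_of_lt_cof
      · rw [← Ordinal.lift_cof, hc.cof_ord]
        exact hcon
      · exact fun i hi => hi.1
    obtain ⟨γ, hγ1, hγ2, hγ3⟩ := hf _ h2
    have h3 : γ + 1 ≤ sSup ((· + 1) '' Γ) := by
      refine le_csSup ?_ ⟨γ, ⟨hγ2, hγ3⟩, rfl⟩
      refine ⟨c.ord, ?_⟩
      rintro _ ⟨x, hx, rfl⟩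
      exact (add_one_lt_ord hc hx.1).le
    exact absurd (hγ1.trans_lt (lt_add_one γ)) (not_lt.2 h3)
  obtain ⟨e⟩ := h1
  refine ⟨fun ξ => {α | α ∈ CofOmega c.ord ∧ ∃ h : ξ < c.ord, f α = e ⟨ξ, h⟩}, ?_, ?_, ?_⟩
  · intro ξ hξ
    exact (e ⟨ξ, hξ⟩).2.2.mono fun α hα _ => ⟨hα.1, hξ, hα.2⟩
  · intro ξ α hα
    exact hα.1
  · intro ξ hξ ζ hζ hne
    rw [Set.disjoint_left]
    rintro α ⟨_, _, h1⟩ ⟨_, _, h2⟩
    apply hne
    have h3 : e ⟨ξ, hξ⟩ = e ⟨ζ, hζ⟩ := Subtype.ext (h1.symm.trans h2)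
    have h4 := e.injective h3
    exact congrArg Subtype.val h4

end Pool.Agent.Helper154_Diamond
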