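import Mathlib

/-!
Definitions: closed unbounded and stationary subsets of an ordinal, the diamond principle and the
weak diamond principle, simultaneous reflection of stationary sets, measured cardinals,
`ω₁`-strongly compact and weakly compact cardinals.
-/

open Ordinal Cardinal Set Order

universe u

namespace Pool.Agent.Helper154_Diamond

/-- `C` is a closed unbounded subset of the ordinal `δ`: it consists of ordinals below `δ`, it is
unbounded in `δ`, and it contains every nonzero ordinal below `δ` that is a limit of its elements. -/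
def ClubIn (C : Set Ordinal.{u}) (δ : Ordinal.{u}) : Prop :=
  C ⊆ Set.Iio δ ∧ (∀ β < δ, ∃ γ ∈ C, β < γ) ∧
    ∀ β < δ, β ≠ 0 → (∀ ε < β, ∃ γ ∈ C, ε < γ ∧ γ < β) → β ∈ C

/-- `S ∩ δ` is a stationary subset of `δ`: the set `S` meets every closed unbounded subset
of `δ`. -/
def StatIn (S : Set Ordinal.{u}) (δ : Ordinal.{u}) : Prop :=
  ∀ C, ClubIn C δ → (S ∩ C).Nonempty

/-- The diamond principle at the ordinal `δ` (used for `δ` a regular cardinal). -/
def Diamond (δ : Ordinal.{u}) : Prop :=
  ∃ A : Ordinal.{u} → Set Ordinal.{u}, (∀ α < δ, A α ⊆ Set.Iio α) ∧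
    ∀ X ⊆ Set.Iio δ, StatIn {α | α < δ ∧ X ∩ Set.Iio α = A α} δ

/-- The diamond principle at the ordinal `δ`, with guessing at stationarily many elements of
the class `B` (used for `δ` a regular cardinal). -/
def DiamondOn (B : Set Ordinal.{u}) (δ : Ordinal.{u}) : Prop :=
  ∃ A : Ordinal.{u} → Set Ordinal.{u}, (∀ α < δ, A α ⊆ Set.Iio α) ∧
    ∀ X ⊆ Set.Iio δ, StatIn {α | α ∈ B ∧ α < δ ∧ X ∩ Set.Iio α = A α} δ

/-- The weak diamond principle of Devlin and Shelah at the ordinal `δ` (used for `δ` a regular
cardinal): the function `F` takes as input an ordinal `α` and a function from the ordinals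
below `α` to two values. -/
def WeakDiamond (δ : Ordinal.{u}) : Prop :=
  ∀ F : (α : Ordinal.{u}) → (Set.Iio α → Bool) → Bool, ∃ g : Ordinal.{u} → Bool,
    ∀ f : Ordinal.{u} → Bool, StatIn {α | α < δ ∧ F α (fun x => f x) = g α} δ

/-- The ordinals of countable cofinality below `δ`. -/
def CofOmega (δ : Ordinal.{u}) : Set Ordinal.{u} :=
  {α | α < δ ∧ α.cof = ℵ₀}

/-- The singular limit ordinals: the limit ordinals of cofinality smaller than themselves. -/
def SingularOrd : Set Ordinal.{u} :=
  {α | IsSuccLimit α ∧ α.cof.ord < α}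

/-- Simultaneous reflection at an element of `B`: for every decreasing sequence, indexed by the
ordinals below `δ`, of stationary subsets of `δ` consisting of ordinals of countable cofinality,
there is an ordinal `α < δ` in `B` such that `S ξ` is stationary in `α` for all `ξ < α`. -/
def ReflectsOn (B : Set Ordinal.{u}) (δ : Ordinal.{u}) : Prop :=
  ∀ S : Ordinal.{u} → Set Ordinal.{u},
    (∀ ξ < δ, StatIn (S ξ) δ ∧ S ξ ⊆ CofOmega δ) →
    (∀ ξ < δ, ∀ ζ < ξ, S ξ ⊆ S ζ) →
    ∃ α ∈ B, α < δ ∧ ∀ ξ < α, StatIn (S ξ) α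

/-- The limit ordinals above `κ` of cofinality at most `κ`. -/
def CofLe (κ : Cardinal.{u}) : Set Ordinal.{u} :=
  {α | IsSuccLimit α ∧ κ.ord < α ∧ α.cof ≤ κ}

/-- The limit ordinals above `κ`. -/
def LimitAbove (κ : Cardinal.{u}) : Set Ordinal.{u} :=
  {α | IsSuccLimit α ∧ κ.ord < α}

/-- `m` is countably measured: for every family `𝒜` of at most `m` sets of ordinals there is a
proper countably complete filter which contains the set of ordinals below `m` and all final
segments of it, and which contains every element of `𝒜` or its complement. -/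
def CountablyMeasured (m : Cardinal.{u}) : Prop :=
  ∀ 𝒜 : Set (Set Ordinal.{u}), #𝒜 ≤ Cardinal.lift.{u + 1} m → ∃ F : Filter Ordinal.{u},
    F.NeBot ∧ CountableInterFilter F ∧ Set.Iio m.ord ∈ F ∧ (∀ γ < m.ord, Set.Ioi γ ∈ F) ∧
      ∀ A ∈ 𝒜, A ∈ F ∨ Aᶜ ∈ F

/-- The filter extension property of `κ` for the sets satisfying `P`: every `κ`-complete proper
filter on such a set extends to a countably complete ultrafilter. -/
def FilterExtension (κ : Cardinal.{u}) (P : Cardinal.{u} → Prop) : Prop :=
  ∀ (Z : Type u) (F : Filter Z), P #Z → F.NeBot → CardinalInterFilter F κ →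
    ∃ U : Ultrafilter Z, (U : Filter Z) ≤ F ∧ CountableInterFilter (U : Filter Z)

/-- An uncountable cardinal `κ` is `ω₁`-strongly compact (Bagaria and Magidor) if every
`κ`-complete proper filter on a set extends to a countably complete ultrafilter. -/
def OmegaOneStronglyCompact (κ : Cardinal.{u}) : Prop :=
  ℵ₀ < κ ∧ FilterExtension κ fun _ => True

/-- For `c` strongly inaccessible: `κ` is `ω₁`-strongly compact in `V_c`. -/
def OmegaOneStronglyCompactBelow (κ c : Cardinal.{u}) : Prop :=
  ℵ₀ < κ ∧ FilterExtension κ fun z => z < c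

/-- Weak compactness of a strongly inaccessible cardinal `c`, in its filter form: for every
family `𝒜` of at most `c` sets of ordinals there is a proper `c`-complete filter which contains
the set of ordinals below `c` and all final segments of it, and which contains every element
of `𝒜` or its complement. -/
def WeaklyCompact (c : Cardinal.{u}) : Prop :=
  c.IsInaccessible ∧ ∀ 𝒜 : Set (Set Ordinal.{u}), #𝒜 ≤ Cardinal.lift.{u + 1} c →
    ∃ F : Filter Ordinal.{u}, F.NeBot ∧ CardinalInterFilter F (Cardinal.lift.{u + 1} c) ∧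
      Set.Iio c.ord ∈ F ∧ (∀ γ < c.ord, Set.Ioi γ ∈ F) ∧ ∀ A ∈ 𝒜, A ∈ F ∨ Aᶜ ∈ F

end Pool.Agent.Helper154_Diamond
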