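import Pool.Agent.Helper154_Diamond.Reflect

/-!
Simultaneous reflection at all regular cardinals of an interval gives simultaneous reflection at
ordinals of small cofinality.
-/

open Ordinal Cardinal Set Order

universe u

namespace Pool.Agent.Helper154_Diamond

/-- A strictly increasing continuous function built from `g`. -/
noncomputable def nf (g : Ordinal.{u} → Ordinal.{u}) : Ordinal.{u} → Ordinal.{u} :=
  WellFounded.fix Ordinal.lt_wf fun i F => ⨆ j : Iio i, (max (g j) (F j j.2) + 1)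

theorem nf_eq (g : Ordinal.{u} → Ordinal.{u}) (i : Ordinal.{u}) :
    nf g i = ⨆ j : Iio i, (max (g j) (nf g j) + 1) := by
  rw [nf, WellFounded.fix_eq]

theorem max_lt_nf (g : Ordinal.{u} → Ordinal.{u}) {j i : Ordinal.{u}} (h : j < i) :
    max (g j) (nf g j) < nf g i := by
  rw [nf_eq g i]
  exact lt_bd (fun j => max (g j) (nf g j)) h

theorem nf_isNormal (g : Ordinal.{u} → Ordinal.{u}) : IsNormal (nf g) := by
  rw [Order.isNormal_iff]
  refine ⟨fun j i h => (le_max_right _ _).trans_lt (max_lt_nf g h), fun i hi a ha => ?_⟩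
  rw [nf_eq g i]
  refine Ordinal.iSup_le fun j => ?_
  have h1 : (j : Ordinal.{u}) + 1 < i := hi.add_one_lt j.2
  have h2 := (max_lt_nf g (lt_add_one (j : Ordinal.{u}))).trans_le (ha _ h1)
  rw [← Order.succ_eq_add_one]
  exact Order.succ_le_of_lt h2

/-- Every limit ordinal is the limit of a normal sequence of length its cofinality. -/
theorem exists_normal {δ : Ordinal.{u}} (hδ : IsSuccLimit δ) :
    ∃ f : Ordinal.{u} → Ordinal.{u}, IsNormal f ∧ (∀ i < δ.cof.ord, f i < δ) ∧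
      ∀ x < δ, ∃ i < δ.cof.ord, x < f i := by
  classical
  obtain ⟨s, hs, hs'⟩ := Order.exists_cof_eq (Iio δ)
  rw [Ordinal.cof_Iio, ← Ordinal.lift_cof] at hs'
  have h1 : #(Iio δ.cof.ord) = #s := by
    rw [Cardinal.mk_Iio_ordinal, Cardinal.card_ord, hs']
  obtain ⟨e⟩ := Cardinal.eq.1 h1
  let g : Ordinal.{u} → Ordinal.{u} := fun i =>
    if h : i < δ.cof.ord then ((e ⟨i, h⟩ : s) : Iio δ) else 0
  have hg : ∀ i, g i < δ := by
    intro i
    by_cases h : i < δ.cof.ord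
    · simp only [g, h, dite_true]
      exact ((e ⟨i, h⟩ : s) : Iio δ).2
    · simp only [g, h, dite_false]
      exact hδ.bot_lt
  have hreg : δ.cof.IsRegular := Cardinal.isRegular_cof hδ
  have hlim : IsSuccLimit δ.cof.ord := isSuccLimit_ord hreg.aleph0_le
  refine ⟨nf g, nf_isNormal g, ?_, ?_⟩
  · intro i
    induction i using WellFoundedLT.induction with
    | ind i ih =>
      intro hi
      rw [nf_eq g i]
      apply Ordinal.lift_iSup_add_one_lt_of_lt_cof
      · rw [← Ordinal.lift_cof, Cardinal.mk_Iio_ordinal, Cardinal.lift_lift, Cardinal.lift_lt,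
          ← Cardinal.lt_ord]
        exact hi
      · intro j
        exact max_lt (hg j) (ih j j.2 (j.2.trans hi))
  · intro x hx
    obtain ⟨d, hd, hxd⟩ := hs ⟨x, hx⟩
    obtain ⟨⟨i, hi⟩, hi'⟩ := e.surjective ⟨d, hd⟩
    refine ⟨i + 1, hlim.add_one_lt hi, ?_⟩
    have h2 : g i = (d : Ordinal.{u}) := by
      have hi2 : i < δ.cof.ord := hi
      simp only [g, hi2, dite_true]
      exact congrArg (fun z : s => ((z : Iio δ) : Ordinal.{u})) hi'
    have h3 := (le_max_left _ _).trans_lt (max_lt_nf g (lt_add_one i))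
    rw [h2] at h3
    exact lt_of_le_of_lt hxd h3

/-- Pulling back stationary sets along a normal sequence. -/
theorem StatIn.pull {δ : Ordinal.{u}} {m : Cardinal.{u}} (hm : m.IsRegular) (hω : ℵ₀ < m)
    {f : Ordinal.{u} → Ordinal.{u}} (hf : IsNormal f) (hfδ : ∀ i < m.ord, f i < δ)
    (hfc : ∀ x < δ, ∃ i < m.ord, x < f i) {S : Set Ordinal.{u}} (hS : StatIn S δ) :
    StatIn {j | IsSuccLimit j ∧ f j ∈ S} m.ord := by
  intro C hC
  have hcl := club_inter hm hω hC (club_closure hm hω (h := fun β => β + 1)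
    (fun β hβ => add_one_lt_ord hm hβ))
  have hlimC : ∀ j ∈ C ∩ {α | α < m.ord ∧ ∀ β < α, β + 1 < α}, j ≠ 0 → IsSuccLimit j := by
    rintro j ⟨_, _, hj⟩ h0
    rw [Ordinal.isSuccLimit_iff, Order.isSuccPrelimit_iff_succ_lt]
    exact ⟨h0, fun ε hε => hj ε hε⟩
  have hclub : ClubIn {x | x < δ ∧ ∃ j ∈ C, IsSuccLimit j ∧ x = f j} δ := by
    refine ⟨fun x hx => hx.1, ?_, ?_⟩
    · intro x hx
      obtain ⟨i, hi, hxi⟩ := hfc x hx
      obtain ⟨j, hj, hij⟩ := hcl.2.1 i hi
      refine ⟨f j, ⟨hfδ j (hC.1 hj.1), j, hj.1, hlimC j hj (zero_le.trans_lt hij).ne', rfl⟩, ?_⟩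
      exact hxi.trans (hf.strictMono hij)
    · intro x hx h0 hlim
      have hne : {i : Ordinal.{u} | i < m.ord ∧ x ≤ f i}.Nonempty := by
        obtain ⟨i, hi, hxi⟩ := hfc x hx
        exact ⟨i, hi, hxi.le⟩
      set i := sInf {i : Ordinal.{u} | i < m.ord ∧ x ≤ f i} with hi
      obtain ⟨him, hxi⟩ : i < m.ord ∧ x ≤ f i := csInf_mem hne
      have hmin : ∀ i' < i, f i' < x := by
        intro i' hi'
        by_contra h
        exact absurd hi' (not_lt.2 (csInf_le' ⟨hi'.trans him, not_lt.1 h⟩))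
      have h1 : ∀ i' < i, ∃ j ∈ C, IsSuccLimit j ∧ i' < j ∧ j < i := by
        intro i' hi'
        obtain ⟨_, ⟨_, j, hj, hjl, rfl⟩, h2, h3⟩ := hlim _ (hmin i' hi')
        exact ⟨j, hj, hjl, hf.strictMono.lt_iff_lt.1 h2,
          hf.strictMono.lt_iff_lt.1 (h3.trans_le hxi)⟩
      have hi0 : i ≠ 0 := by
        rintro h
        obtain ⟨_, ⟨_, j, hj, hjl, rfl⟩, h2, h3⟩ := hlim 0 (pos_iff_ne_zero.2 h0)
        have := hf.strictMono.lt_iff_lt.1 (h3.trans_le hxi)
        rw [h] at this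
        exact absurd this (not_lt.2 zero_le)
      have hil : IsSuccLimit i := by
        rw [Ordinal.isSuccLimit_iff, Order.isSuccPrelimit_iff_succ_lt]
        refine ⟨hi0, fun ε hε => ?_⟩
        obtain ⟨j, _, _, h2, h3⟩ := h1 ε hε
        exact lt_of_le_of_lt (Order.succ_le_of_lt h2) h3
      refine ⟨hx, i, hC.2.2 i him hi0 fun ε hε => ?_, hil, ?_⟩
      · obtain ⟨j, hj, _, h2, h3⟩ := h1 ε hε
        exact ⟨j, hj, h2, h3⟩
      · refine le_antisymm hxi ?_
        rw [hf.le_iff_forall_le hil]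
        exact fun i' hi' => (hmin i' hi').le
  obtain ⟨_, hxS, _, j, hj, hjl, rfl⟩ := hS _ hclub
  exact ⟨j, ⟨hjl, hxS⟩, hj⟩

/-- A limit ordinal with a stationary subset consisting of limit ordinals has uncountable
cofinality. -/
theorem StatIn.cof_ne {β : Ordinal.{u}} (hβ : IsSuccLimit β) {S : Set Ordinal.{u}}
    (hS : StatIn S β) (hSl : ∀ j ∈ S, IsSuccLimit j) : ℵ₀ < β.cof := by
  refine lt_of_le_of_ne (Cardinal.isRegular_cof hβ).aleph0_le ?_
  intro hcof
  obtain ⟨s, hs, hs'⟩ := exists_seq hcof.symm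
  let a : ℕ → Ordinal.{u} := fun n => Nat.rec (s 0 + 1) (fun n x => max x (s (n + 1)) + 1) n
  have ha0 : a 0 = s 0 + 1 := rfl
  have ha1 : ∀ n, a (n + 1) = max (a n) (s (n + 1)) + 1 := fun n => rfl
  have haβ : ∀ n, a n < β := by
    intro n
    induction n with
    | zero => rw [ha0]; exact hβ.add_one_lt (hs 0)
    | succ n ih => rw [ha1]; exact hβ.add_one_lt (max_lt ih (hs _))
  have hmono : StrictMono a := by
    refine strictMono_nat_of_lt_succ fun n => ?_
    rw [ha1]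
    exact (le_max_left _ _).trans_lt (lt_add_one _)
  have hsa : ∀ n, s n < a n := by
    rintro (_ | n)
    · rw [ha0]; exact lt_add_one _
    · rw [ha1]
      exact (le_max_right _ _).trans_lt (lt_add_one _)
  have hclub : ClubIn (Set.range a) β := by
    refine ⟨?_, ?_, ?_⟩
    · rintro _ ⟨n, rfl⟩
      exact haβ n
    · intro x hx
      obtain ⟨n, hn⟩ := hs' x hx
      exact ⟨a n, ⟨n, rfl⟩, hn.trans_lt (hsa n)⟩
    · intro x hx h0 hlim
      exfalso
      obtain ⟨n, hn⟩ := hs' x hx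
      have h1 : ∀ k, ∃ i ≥ k, a i < x := by
        intro k
        induction k with
        | zero =>
          obtain ⟨_, ⟨i, rfl⟩, _, h2⟩ := hlim 0 (pos_iff_ne_zero.2 h0)
          exact ⟨i, Nat.zero_le _, h2⟩
        | succ k ih =>
          obtain ⟨i, hi, hix⟩ := ih
          obtain ⟨_, ⟨j, rfl⟩, h2, h3⟩ := hlim (a i) hix
          have h4 := hmono.lt_iff_lt.1 h2
          exact ⟨j, by omega, h3⟩
      obtain ⟨i, hi, hix⟩ := h1 n
      have h2 := hmono.monotone hi
      exact absurd (hix.trans_le hn) (not_lt.2 ((hsa n).le.trans h2))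
  obtain ⟨_, hj, ⟨n, rfl⟩⟩ := hS _ hclub
  have h1 := hSl _ hj
  rcases n with _ | n
  · rw [ha0] at h1
    exact absurd (h1.add_one_lt (lt_add_one _)) (lt_irrefl _)
  · rw [ha1] at h1
    exact absurd (h1.add_one_lt (lt_add_one _)) (lt_irrefl _)

/-- Pushing forward stationary sets along a normal function. -/
theorem StatIn.push {β : Ordinal.{u}} (hβ : IsSuccLimit β)
    {f : Ordinal.{u} → Ordinal.{u}} (hf : IsNormal f) {S : Set Ordinal.{u}}
    (hS : StatIn {j | IsSuccLimit j ∧ f j ∈ S} β) : StatIn S (f β) := by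
  classical
  have hcof := hS.cof_ne hβ (fun j hj => hj.1)
  intro C hC
  have h1 : ∀ i : Ordinal.{u}, ∃ i', i < β → i' < β ∧ i < i' ∧ ∃ γ ∈ C, f i < γ ∧ γ < f i' := by
    intro i
    by_cases hi : i < β
    · obtain ⟨γ, hγ, hiγ⟩ := hC.2.1 (f i) (hf.strictMono hi)
      obtain ⟨i', hi', hγi'⟩ := (hf.lt_iff_exists_lt hβ).1 (hC.1 hγ)
      exact ⟨i', fun _ => ⟨hi', hf.strictMono.lt_iff_lt.1 (hiγ.trans hγi'), γ, hγ, hiγ, hγi'⟩⟩
    · exact ⟨0, fun h => absurd h hi⟩
  choose nx hnx using h1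
  have hclub : ClubIn {j | j < β ∧ IsSuccLimit j ∧ f j ∈ C} β := by
    refine ⟨fun j hj => hj.1, ?_, ?_⟩
    · intro i hi
      have ha : ∀ n, nx^[n] i < β := by
        intro n
        induction n with
        | zero => exact hi
        | succ n ih =>
          rw [Function.iterate_succ_apply']
          exact (hnx _ ih).1
      have hmono : StrictMono (fun n => nx^[n] i) := by
        refine strictMono_nat_of_lt_succ fun n => ?_
        rw [Function.iterate_succ_apply' nx n]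
        exact (hnx _ (ha n)).2.1
      have hsup : (⨆ n, nx^[n] i) < β := by
        apply Ordinal.lift_iSup_lt_of_lt_cof
        · rw [← Ordinal.lift_cof]
          simpa using hcof
        · exact ha
      have hc : (⨆ n, nx^[n] i).cof = ℵ₀ := by
        have := Ordinal.lift_cof_iSup hmono
        simpa using this
      have hlim := isSuccLimit_of_cof hc
      have hi' : i < ⨆ n, nx^[n] i :=
        (hmono (Nat.zero_lt_one)).trans_le (Ordinal.le_iSup (fun n => nx^[n] i) 1)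
      refine ⟨⨆ n, nx^[n] i, ⟨hsup, hlim, ?_⟩, hi'⟩
      refine hC.2.2 _ (hf.strictMono hsup) ?_ fun ε hε => ?_
      · exact (zero_le.trans_lt (hf.strictMono hi')).ne'
      · obtain ⟨j, hj, hεj⟩ := (hf.lt_iff_exists_lt hlim).1 hε
        obtain ⟨n, hn⟩ := (Ordinal.lt_iSup_iff).1 hj
        obtain ⟨_, _, γ, hγ, h2, h3⟩ := hnx _ (ha n)
        refine ⟨γ, hγ, hεj.trans ((hf.strictMono hn).trans h2), h3.trans_le ?_⟩
        refine hf.strictMono.monotone ?_
        have := Ordinal.le_iSup (fun n => nx^[n] i) (n + 1)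
        rwa [Function.iterate_succ_apply' nx n] at this
    · intro j hj h0 hlim
      have hjl : IsSuccLimit j := by
        rw [Ordinal.isSuccLimit_iff, Order.isSuccPrelimit_iff_succ_lt]
        refine ⟨h0, fun ε hε => ?_⟩
        obtain ⟨i, _, h2, h3⟩ := hlim ε hε
        exact lt_of_le_of_lt (Order.succ_le_of_lt h2) h3
      refine ⟨hj, hjl, ?_⟩
      refine hC.2.2 _ (hf.strictMono hj) ?_ fun ε hε => ?_
      · exact (zero_le.trans_lt (hf.strictMono (pos_iff_ne_zero.2 h0))).ne'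
      · obtain ⟨i, hi, hεi⟩ := (hf.lt_iff_exists_lt hjl).1 hε
        obtain ⟨i', hi', h2, h3⟩ := hlim i hi
        exact ⟨f i', hi'.2.2, hεi.trans (hf.strictMono h2), hf.strictMono h3⟩
  obtain ⟨j, ⟨_, hjS⟩, hj⟩ := hS _ hclub
  exact ⟨f j, hjS, hj.2.2⟩


theorem cofLe_subset (κ : Cardinal.{u}) : CofLe κ ⊆ SingularOrd :=
  fun _ h => ⟨h.1, (Cardinal.ord_le_ord.2 h.2.2).trans_lt h.2.1⟩

/-- Descending to a point of reflection of small cofinality. -/
theorem reflect_descend {κ c : Cardinal.{u}} (hκ : ℵ₀ ≤ κ)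
    (h : ∀ m : Cardinal.{u}, m.IsRegular → κ < m → m ≤ c → ReflectsOn (LimitAbove κ) m.ord) :
    ∀ m : Cardinal.{u}, κ < m → m ≤ c → ∀ δ : Ordinal.{u}, δ.cof = m → ReflectsOn (CofLe κ) δ := by
  intro m
  induction m using WellFoundedLT.induction with
  | ind m ih =>
    intro hκm hmc δ hδ S hS hdec
    have hδl : IsSuccLimit δ := by
      rw [← Ordinal.one_lt_cof_iff, hδ]
      exact Cardinal.one_lt_aleph0.trans (hκ.trans_lt hκm)
    have hm : m.IsRegular := hδ ▸ Cardinal.isRegular_cof hδl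
    have hω : ℵ₀ < m := hκ.trans_lt hκm
    obtain ⟨f, hf, hfδ, hfc⟩ := exists_normal hδl
    rw [hδ] at hfδ hfc
    obtain ⟨β, ⟨hβ, hκβ⟩, hβm, hβS⟩ := h m hm hκm hmc
      (fun i => {j | j < m.ord ∧ IsSuccLimit j ∧ f j ∈ S (f i)})
      (fun i hi => by
        refine ⟨((hS _ (hfδ i hi)).1.pull hm hω hf hfδ hfc).mono fun j hj hjm => ⟨hjm, hj⟩, ?_⟩
        rintro j ⟨hj, hjl, hjS⟩
        refine ⟨hj, ?_⟩
        rw [← Ordinal.cof_map_of_isNormal hf hjl]
        exact ((hS _ (hfδ i hi)).2 hjS).2)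
      (fun i hi i' hi' j hj =>
        ⟨hj.1, hj.2.1, hdec _ (hfδ i hi) _ (hf.strictMono hi') hj.2.2⟩)
    have h1 : ∀ ξ < f β, StatIn (S ξ) (f β) := by
      intro ξ hξ
      obtain ⟨i, hi, hξi⟩ := (hf.lt_iff_exists_lt hβ).1 hξ
      have h2 : StatIn (S (f i)) (f β) :=
        StatIn.push hβ hf ((hβS i hi).mono fun j hj _ => hj.2)
      exact h2.mono fun ε hε _ => hdec _ (hfδ i (hi.trans hβm)) _ hξi hε
    have h2 : κ.ord < f β := hκβ.trans_le hf.strictMono.le_apply
    have h3 : (f β).cof = β.cof := Ordinal.cof_map_of_isNormal hf hβ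
    have h4 : IsSuccLimit (f β) := hf.map_isSuccLimit hβ
    rcases le_or_gt β.cof κ with h5 | h5
    · exact ⟨f β, ⟨h4, h2, h3.trans_le h5⟩, hfδ β hβm, h1⟩
    · have h6 : β.cof < m := by
        rw [← Cardinal.ord_lt_ord]
        exact (Ordinal.ord_cof_le β).trans_lt hβm
      obtain ⟨α, hα, hαβ, hαS⟩ := ih β.cof h6 h5 (h6.le.trans hmc) (f β) h3
        (fun ξ => S ξ ∩ Iio (f β))
        (fun ξ hξ => ⟨(h1 ξ hξ).mono fun ε hε hε' => ⟨hε, hε'⟩,
          fun ε hε => ⟨hε.2, ((hS ξ (hξ.trans (hfδ β hβm))).2 hε.1).2⟩⟩)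
        (fun ξ hξ ζ hζ ε hε => ⟨hdec ξ (hξ.trans (hfδ β hβm)) ζ hζ hε.1, hε.2⟩)
      exact ⟨α, hα, hαβ.trans (hfδ β hβm), fun ξ hξ => (hαS ξ hξ).mono fun ε hε _ => hε.1⟩

end Pool.Agent.Helper154_Diamond
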