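import Pool.Agent.Helper154_Diamond.Clubs

/-!
From guessing unbounded sets by few small sets to the diamond principle, at a strongly
inaccessible cardinal.
-/

open Ordinal Cardinal Set Order

universe u

namespace Pool.Agent.Helper154_Diamond

theorem DiamondOn.diamond {B : Set Ordinal.{u}} {δ : Ordinal.{u}} (h : DiamondOn B δ) :
    Diamond δ := by
  obtain ⟨A, hA, hA'⟩ := h
  exact ⟨A, hA, fun X hX => (hA' X hX).mono fun α hα _ => hα.2⟩

theorem Diamond.weakDiamond {δ : Ordinal.{u}} (h : Diamond δ) : WeakDiamond δ := by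
  classical
  obtain ⟨A, _, hA⟩ := h
  intro F
  refine ⟨fun α => F α (fun x => decide ((x : Ordinal.{u}) ∈ A α)), fun f => ?_⟩
  refine (hA {ξ | ξ < δ ∧ f ξ = true} (fun ξ hξ => hξ.1)).mono ?_
  rintro α ⟨hα, hαA⟩ _
  refine ⟨hα, ?_⟩
  congr 1
  funext x
  have hx : (x : Ordinal.{u}) ∈ A α ↔ f x = true := by
    rw [← hαA]
    constructor
    · rintro ⟨⟨_, h⟩, _⟩
      exact h
    · intro h
      exact ⟨⟨x.2.trans hα, h⟩, x.2⟩
  cases hfx : f x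
  · symm
    rw [decide_eq_false_iff_not, hx, hfx]
    decide
  · symm
    rw [decide_eq_true_iff, hx, hfx]

/-- Codes for bounded subsets of the square. -/
theorem exists_code {c : Cardinal.{u}} (hc : c.IsInaccessible) :
    ∃ cd : Ordinal.{u} → Set (Ordinal.{u} × Ordinal.{u}) → Ordinal.{u},
      (∀ γ < c.ord, ∀ B, cd γ B < c.ord) ∧
      ∀ γ < c.ord, ∀ γ' < c.ord, ∀ B ⊆ Iio γ ×ˢ Iio γ, ∀ B' ⊆ Iio γ' ×ˢ Iio γ',
        cd γ B = cd γ' B' → γ = γ' ∧ B = B' := by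
  classical
  have h1 : #((γ : Iio c.ord) × Set (Iio (γ : Ordinal.{u}) × Iio (γ : Ordinal.{u}))) ≤
      #(Iio c.ord) := by
    rw [Cardinal.mk_sigma]
    have h2 : ∀ γ : Iio c.ord,
        #(Set (Iio (γ : Ordinal.{u}) × Iio (γ : Ordinal.{u}))) ≤ Cardinal.lift.{u + 1} c := by
      intro γ
      rw [Cardinal.mk_set, Cardinal.mk_prod, Cardinal.mk_Iio_ordinal, Cardinal.lift_lift,
        ← Cardinal.lift_mul, ← Cardinal.lift_two_power, Cardinal.lift_le]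
      refine (hc.isStrongLimit.isStrongPrelimit ?_).le
      have h3 : (γ : Ordinal.{u}).card < c := Cardinal.lt_ord.1 γ.2
      exact Cardinal.mul_lt_of_lt hc.aleph0_lt.le h3 h3
    refine (Cardinal.sum_le_sum _ _ h2).trans ?_
    rw [Cardinal.sum_const', Cardinal.mk_Iio_ordinal, Cardinal.card_ord]
    exact (Cardinal.mul_eq_self (by simpa using hc.aleph0_lt.le)).le
  obtain ⟨e⟩ := h1
  refine ⟨fun γ B => if h : γ < c.ord then
    (e ⟨⟨γ, h⟩, {q | ((q.1 : Ordinal.{u}), (q.2 : Ordinal.{u})) ∈ B}⟩ : Ordinal.{u}) else 0, ?_, ?_⟩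
  · intro γ hγ B
    simp only [hγ, dif_pos]
    exact (e _).2
  · intro γ hγ γ' hγ' B hB B' hB' heq
    simp only [hγ, hγ', dif_pos] at heq
    have h2 := e.injective (Subtype.ext heq)
    rw [Sigma.mk.injEq] at h2
    obtain ⟨h3, h4⟩ := h2
    have h5 : γ = γ' := congrArg Subtype.val h3
    subst h5
    refine ⟨rfl, ?_⟩
    have h6 := eq_of_heq h4
    ext ⟨x, y⟩
    constructor
    · intro hxy
      have hxy' := hB hxy
      have h7 : ((⟨x, hxy'.1⟩ : Iio γ), (⟨y, hxy'.2⟩ : Iio γ)) ∈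
          {q : Iio γ × Iio γ | ((q.1 : Ordinal.{u}), (q.2 : Ordinal.{u})) ∈ B} := hxy
      rw [h6] at h7
      exact h7
    · intro hxy
      have hxy' := hB' hxy
      have h7 : ((⟨x, hxy'.1⟩ : Iio γ), (⟨y, hxy'.2⟩ : Iio γ)) ∈
          {q : Iio γ × Iio γ | ((q.1 : Ordinal.{u}), (q.2 : Ordinal.{u})) ∈ B'} := hxy
      rw [← h6] at h7
      exact h7

/-- Guessing unbounded sets by a subset, with `|α|` many guesses at the place `α`, implies
the diamond principle at a strongly inaccessible cardinal. -/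
theorem diamond_of_guess {c : Cardinal.{u}} (hc : c.IsInaccessible) (S : Set Ordinal.{u})
    (p : Ordinal.{u} → Ordinal.{u} → Set Ordinal.{u})
    (hp : ∀ K ⊆ Iio c.ord, (∀ ε < c.ord, ∃ ζ ∈ K, ε < ζ) →
      StatIn {α | α ∈ S ∧ α < c.ord ∧ ∃ i < α, p α i ⊆ K ∧
        ∀ ε < α, ∃ ζ ∈ p α i, ε < ζ ∧ ζ < α} c.ord) :
    DiamondOn S c.ord := by
  have hreg := hc.isRegular
  have hω := hc.aleph0_lt
  obtain ⟨cd, hcd1, hcd2⟩ := exists_code hc
  set d : Ordinal.{u} → Set (Ordinal.{u} × Ordinal.{u}) := fun ζ =>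
    {q | ∃ γ < c.ord, ∃ B ⊆ Iio γ ×ˢ Iio γ, cd γ B = ζ ∧ q ∈ B} with hd
  set A : Ordinal.{u} → Ordinal.{u} → Set Ordinal.{u} := fun i α =>
    {ξ | ξ < α ∧ ∃ ζ ∈ p α i, (ξ, i) ∈ d ζ} with hA
  by_contra hcon
  have h1 : ∀ i : Ordinal.{u}, ∃ X ⊆ Iio c.ord, ∃ C, ClubIn C c.ord ∧
      ({α | α ∈ S ∧ α < c.ord ∧ X ∩ Set.Iio α = A i α} ∩ C) = ∅ := by
    intro i
    by_contra h2
    apply hcon
    refine ⟨A i, fun α _ ξ hξ => hξ.1, fun X hX C hC => ?_⟩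
    rw [Set.nonempty_iff_ne_empty]
    intro h3
    exact h2 ⟨X, hX, C, hC, h3⟩
  choose X hX C hC hXC using h1
  set Y : Set (Ordinal.{u} × Ordinal.{u}) := {q | q.1 ∈ X q.2} with hY
  set ζ : Ordinal.{u} → Ordinal.{u} := fun γ => cd γ (Y ∩ Iio γ ×ˢ Iio γ) with hζ
  have hζlt : ∀ γ < c.ord, ζ γ < c.ord := fun γ hγ => hcd1 γ hγ _
  have hζinj : Set.InjOn ζ (Iio c.ord) := by
    intro γ hγ γ' hγ' heq
    exact (hcd2 γ hγ γ' hγ' _ Set.inter_subset_right _ Set.inter_subset_right heq).1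
  have hK : ∀ ε < c.ord, ∃ z ∈ ζ '' Iio c.ord, ε < z := by
    intro ε hε
    by_contra h2
    push Not at h2
    have h3 : ζ '' Iio c.ord ⊆ Iio (ε + 1) := fun z hz => by
      exact lt_of_le_of_lt (h2 z hz) (lt_add_one ε)
    have h4 := Cardinal.mk_le_mk_of_subset h3
    rw [Cardinal.mk_image_eq_of_injOn _ _ hζinj, Cardinal.mk_Iio_ordinal,
      Cardinal.mk_Iio_ordinal, Cardinal.lift_le, Cardinal.card_ord] at h4
    exact absurd (Cardinal.lt_ord.1 (add_one_lt_ord hreg hε)) (not_lt.2 h4)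
  have hstat := hp (ζ '' Iio c.ord) (by rintro _ ⟨γ, hγ, rfl⟩; exact hζlt γ hγ) hK
  have hcl := club_closure hreg hω (h := fun β => bd ζ (β + 1)) (fun β hβ =>
    bd_lt hreg (add_one_lt_ord hreg hβ) (fun γ hγ => hζlt γ (hγ.trans (add_one_lt_ord hreg hβ))))
  obtain ⟨α, ⟨hαS, hα, i, hi, hpi, hpu⟩, ⟨_, hαC⟩, ⟨_, hαcl⟩⟩ :=
    hstat _ (club_inter hreg hω (club_diag hreg hω (fun i _ => hC i)) hcl)
  have h2 : X i ∩ Iio α = A i α := by
    ext ξ
    constructor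
    · rintro ⟨hξ, hξα⟩
      refine ⟨hξα, ?_⟩
      have hm : max ξ i < α := max_lt hξα hi
      obtain ⟨z, hz, hz1, _⟩ := hpu _ (hαcl _ hm)
      obtain ⟨γ, hγ, rfl⟩ := hpi hz
      refine ⟨ζ γ, hz, γ, hγ, Y ∩ Iio γ ×ˢ Iio γ, Set.inter_subset_right, rfl, hξ, ?_⟩
      have h3 : max ξ i < γ := by
        by_contra h4
        push Not at h4
        have h5 : ζ γ < bd ζ (max ξ i + 1) := lt_bd ζ (lt_of_le_of_lt h4 (lt_add_one _))
        exact absurd hz1 (not_lt.2 h5.le)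
      exact ⟨(le_max_left _ _).trans_lt h3, (le_max_right _ _).trans_lt h3⟩
    · rintro ⟨hξα, z, hz, γ, hγ, B, hB, hBz, hξB⟩
      obtain ⟨γ', hγ', hγz⟩ := hpi hz
      have h3 := hcd2 γ hγ γ' hγ' B hB (Y ∩ Iio γ' ×ˢ Iio γ') Set.inter_subset_right
        (hBz.trans hγz.symm)
      rw [h3.2] at hξB
      exact ⟨hξB.1, hξα⟩
  have h3 : α ∈ ({α | α ∈ S ∧ α < c.ord ∧ X i ∩ Set.Iio α = A i α} ∩ C i) :=
    ⟨⟨hαS, hα, h2⟩, hαC i hi⟩
  rw [hXC i] at h3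
  exact h3

end Pool.Agent.Helper154_Diamond
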