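import Pool.Agent.Helper154_Diamond.Descend

/-!
Measured regular cardinals have simultaneous reflection; the diamond principle above an
`ω₁`-strongly compact cardinal.
-/

open Ordinal Cardinal Set Order Filter

universe u v

namespace Pool.Agent.Helper154_Diamond

/-- The main step: a measured regular cardinal has simultaneous reflection. -/
theorem CountablyMeasured.reflectsOn {m κ : Cardinal.{u}} (hm : m.IsRegular) (hω : ℵ₀ < m)
    (hκ : κ < m) (hM : CountablyMeasured m) : ReflectsOn (LimitAbove κ) m.ord := by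
  classical
  intro S hS hdec
  by_contra hcon
  have hbad : ∀ α : Ordinal.{u}, ∃ ξ : Ordinal.{u}, ∃ C : Set Ordinal.{u},
      (IsSuccLimit α → κ.ord < α → α < m.ord → ξ < α ∧ ClubIn C α ∧ S ξ ∩ C = ∅) := by
    intro α
    by_cases h : IsSuccLimit α ∧ κ.ord < α ∧ α < m.ord
    · have h1 : ¬ ∀ ξ < α, StatIn (S ξ) α := fun h2 => hcon ⟨α, ⟨h.1, h.2.1⟩, h.2.2, h2⟩
      push Not at h1
      obtain ⟨ξ, hξ, hξ'⟩ := h1
      unfold StatIn at hξ'
      push Not at hξ'
      obtain ⟨C, hC, hC'⟩ := hξ'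
      exact ⟨ξ, C, fun _ _ _ => ⟨hξ, hC, hC'⟩⟩
    · exact ⟨0, ∅, fun h1 h2 h3 => absurd ⟨h1, h2, h3⟩ h⟩
  choose ξ C hC using hbad
  have hpred : ∀ α : Ordinal.{u}, ∃ β ≤ α, (α ≠ 0 → ¬ IsSuccLimit α → β < α ∧ α ≤ β + 1) := by
    intro α
    by_cases h : α ≠ 0 ∧ ¬ IsSuccLimit α
    · rcases Ordinal.zero_or_succ_or_isSuccLimit α with h0 | ⟨β, rfl⟩ | h2
      · exact absurd h0 h.1
      · exact ⟨β, (Order.lt_succ β).le, fun _ _ => ⟨Order.lt_succ β, le_rfl⟩⟩
      · exact absurd h2 h.2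
    · exact ⟨α, le_rfl, fun h1 h2 => absurd ⟨h1, h2⟩ h⟩
  choose pr hpr hpr' using hpred
  have hnext : ∀ γ α : Ordinal.{u}, ∃ β ≤ α, (IsSuccLimit α → κ.ord < α → α < m.ord → γ < α →
      β ∈ C α ∧ γ < β ∧ β < α) := by
    intro γ α
    by_cases h : IsSuccLimit α ∧ κ.ord < α ∧ α < m.ord ∧ γ < α
    · obtain ⟨β, hβ, hγβ⟩ := (hC α h.1 h.2.1 h.2.2.1).2.1.2.1 γ h.2.2.2
      have hβα : β < α := (hC α h.1 h.2.1 h.2.2.1).2.1.1 hβ
      exact ⟨β, hβα.le, fun _ _ _ _ => ⟨hβ, hγβ, hβα⟩⟩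
    · exact ⟨α, le_rfl, fun h1 h2 h3 h4 => absurd ⟨h1, h2, h3, h4⟩ h⟩
  choose nx hnx hnx' using hnext
  let op : Option (Option (Iio m.ord)) → Ordinal.{u} → Ordinal.{u} := fun i α =>
    match i with
    | none => pr α
    | some none => min (ξ α) α
    | some (some γ) => nx γ α
  have hop : ∀ i α, op i α ≤ α := by
    rintro (_ | _ | γ) α
    · exact hpr α
    · exact min_le_right _ _
    · exact hnx _ α
  let ev : List (Option (Option (Iio m.ord))) → Ordinal.{u} → Ordinal.{u} := fun w z =>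
    w.foldr op z
  have hev : ∀ w z, ev w z ≤ z := by
    intro w z
    induction w with
    | nil => exact le_rfl
    | cons i w ih => exact (hop i _).trans ih
  have hevc : ∀ i w z, ev (i :: w) z = op i (ev w z) := fun i w z => rfl
  -- the family of sets to be measured
  let I := List (Option (Option (Iio m.ord)))
  let 𝒜 : Set (Set Ordinal.{u}) :=
    Set.range (fun q : I × Iio m.ord => {z | ev q.1 z ≤ q.2}) ∪
      Set.range (fun w : I => {z | IsSuccLimit (ev w z)})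
  have hI : #I ≤ Cardinal.lift.{u + 1} m := by
    refine (Cardinal.mk_list_le_max _).trans ?_
    rw [Cardinal.mk_option, Cardinal.mk_option, Cardinal.mk_Iio_ordinal, Cardinal.card_ord]
    have h1 : ℵ₀ ≤ Cardinal.lift.{u + 1} m := by simpa using hω.le
    refine max_le h1 ?_
    refine Cardinal.add_le_of_le h1 (Cardinal.add_le_of_le h1 le_rfl ?_) ?_
    · exact Cardinal.one_lt_aleph0.le.trans h1
    · exact Cardinal.one_lt_aleph0.le.trans h1
  have h𝒜 : #𝒜 ≤ Cardinal.lift.{u + 1} m := by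
    have h1 : ℵ₀ ≤ Cardinal.lift.{u + 1} m := by simpa using hω.le
    refine (Cardinal.mk_union_le _ _).trans ?_
    refine Cardinal.add_le_of_le h1 (Cardinal.mk_range_le.trans ?_)
      (Cardinal.mk_range_le.trans hI)
    rw [Cardinal.mk_prod, Cardinal.lift_id, Cardinal.lift_id, Cardinal.mk_Iio_ordinal,
      Cardinal.card_ord]
    exact (mul_le_mul' hI le_rfl).trans (Cardinal.mul_eq_self h1).le
  obtain ⟨F, hFne, hFc, hFm, hFγ, hFA⟩ := hM 𝒜 h𝒜
  have hmeas : ∀ (w : I) (δ : Ordinal.{u}), δ < m.ord →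
      (∀ᶠ z in F, ev w z ≤ δ) ∨ ∀ᶠ z in F, δ < ev w z := by
    intro w δ hδ
    rcases hFA {z | ev w z ≤ δ} (Or.inl ⟨(w, ⟨δ, hδ⟩), rfl⟩) with h | h
    · exact Or.inl h
    · refine Or.inr (Filter.mem_of_superset h fun z hz => ?_)
      have hz' : ¬ ev w z ≤ δ := hz
      exact not_le.1 hz'
  -- a least word whose values are unbounded
  have hwf : WellFounded (fun w w' : I => ∀ᶠ z in F, ev w z < ev w' z) := by
    rw [wellFounded_iff_isEmpty_descending_chain]
    constructor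
    rintro ⟨s, hs⟩
    have h1 : ∀ᶠ z in F, ∀ n, ev (s (n + 1)) z < ev (s n) z :=
      eventually_countable_forall.2 hs
    obtain ⟨z, hz⟩ := h1.exists
    have h2 : WellFounded ((· < ·) : Ordinal.{u} → Ordinal.{u} → Prop) := Ordinal.lt_wf
    rw [wellFounded_iff_isEmpty_descending_chain] at h2
    exact h2.elim ⟨fun n => ev (s n) z, hz⟩
  obtain ⟨w, hw, hmin⟩ := hwf.has_min {w : I | ∀ γ < m.ord, ∀ᶠ z in F, γ < ev w z}
    ⟨[], fun γ hγ => hFγ γ hγ⟩
  have hleast : ∀ i, (∀ᶠ z in F, op i (ev w z) < ev w z) →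
      ∃ δ < m.ord, ∀ᶠ z in F, op i (ev w z) ≤ δ := by
    intro i hi
    by_contra h1
    refine hmin (i :: w) (fun γ hγ => ?_) hi
    rcases hmeas (i :: w) γ hγ with h | h
    · exact absurd ⟨γ, hγ, h⟩ h1
    · exact h
  have hlt : ∀ᶠ z in F, ev w z < m.ord := by
    refine Filter.mem_of_superset hFm fun z hz => ?_
    exact (hev w z).trans_lt hz
  have hκm : κ.ord < m.ord := Cardinal.ord_lt_ord.2 hκ
  have hlim : ∀ᶠ z in F, IsSuccLimit (ev w z) := by
    rcases hFA {z | IsSuccLimit (ev w z)} (Or.inr ⟨w, rfl⟩) with h | h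
    · exact h
    · exfalso
      have h1 : ∀ᶠ z in F, pr (ev w z) < ev w z ∧ ev w z ≤ pr (ev w z) + 1 := by
        filter_upwards [h, hw 0 hm.ord_pos] with z hz hz'
        exact hpr' _ hz'.ne' hz
      obtain ⟨δ, hδ, hδ'⟩ := hleast none (h1.mono fun z hz => hz.1)
      obtain ⟨z, ⟨_, hz1⟩, hz2, hz3⟩ :=
        (h1.and (hδ'.and (hw (δ + 1) (add_one_lt_ord hm hδ)))).exists
      have h2 : pr (ev w z) + 1 ≤ δ + 1 := by
        have h4 : pr (ev w z) ≤ δ := hz2
        gcongr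
      exact absurd (hz3.trans_le (hz1.trans h2)) (lt_irrefl _)
  have hgood : ∀ᶠ z in F, IsSuccLimit (ev w z) ∧ κ.ord < ev w z ∧ ev w z < m.ord :=
    hlim.and ((hw _ hκm).and hlt)
  obtain ⟨δ, hδ, hδ'⟩ := hleast (some none) (by
    filter_upwards [hgood] with z hz
    exact lt_of_le_of_lt (min_le_left _ _) (hC _ hz.1 hz.2.1 hz.2.2).1)
  have hξδ : ∀ᶠ z in F, ξ (ev w z) ≤ δ := by
    filter_upwards [hδ', hgood] with z hz hz'
    have h1 : ξ (ev w z) < ev w z := (hC _ hz'.1 hz'.2.1 hz'.2.2).1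
    have h2 : min (ξ (ev w z)) (ev w z) ≤ δ := hz
    rwa [min_eq_left h1.le] at h2
  have hF' : ∀ γ : Ordinal.{u}, ∃ G, γ < m.ord → G < m.ord ∧
      ∀ᶠ z in F, nx γ (ev w z) ≤ G := by
    intro γ
    by_cases hγ : γ < m.ord
    · obtain ⟨G, hG, hG'⟩ := hleast (some (some ⟨γ, hγ⟩)) (by
        filter_upwards [hgood, hw γ hγ] with z hz hz'
        exact (hnx' γ _ hz.1 hz.2.1 hz.2.2 hz').2.2)
      exact ⟨G, fun _ => ⟨hG, hG'⟩⟩
    · exact ⟨0, fun h => absurd h hγ⟩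
  choose G hG using hF'
  have hcl := club_closure hm hω (h := G) (fun β hβ => (hG β hβ).1)
  obtain ⟨α, ⟨hαS, hδα⟩, hαm, hαG⟩ := ((hS δ hδ).1.inter_club hm hω
    (club_tail (isSuccLimit_ord hm.aleph0_le) hδ)) _ hcl
  have hαω := ((hS δ hδ).2 hαS).2
  obtain ⟨s, hs, hs'⟩ := exists_seq hαω
  have h5 : ∀ᶠ z in F, ∀ n, nx (s n) (ev w z) ≤ G (s n) :=
    eventually_countable_forall.2 fun n => (hG (s n) ((hs n).trans hαm)).2
  obtain ⟨z, hz1, hz2, hz3, hz4⟩ := (hgood.and ((hw α hαm).and (h5.and hξδ))).exists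
  obtain ⟨hz5, hz6, hz7⟩ := hC _ hz1.1 hz1.2.1 hz1.2.2
  have h6 : α ∈ C (ev w z) := by
    refine hz6.2.2 α hz2 (isSuccLimit_of_cof hαω).ne_bot ?_
    intro ε hε
    obtain ⟨n, hn⟩ := hs' ε hε
    obtain ⟨h7, h8, _⟩ := hnx' (s n) _ hz1.1 hz1.2.1 hz1.2.2 ((hs n).trans hz2)
    exact ⟨nx (s n) (ev w z), h7, lt_of_le_of_lt hn h8,
      lt_of_le_of_lt (hz3 n) (hαG _ (hs n))⟩
  have h7 : α ∈ S (ξ (ev w z)) := by
    rcases hz4.lt_or_eq with h | h
    · exact hdec δ hδ _ h hαS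
    · rw [h]; exact hαS
  have h8 : α ∈ S (ξ (ev w z)) ∩ C (ev w z) := ⟨h7, h6⟩
  rw [hz7] at h8
  exact h8



/-- The filter extension property at `m` measures `m`. -/
theorem countablyMeasured_of_extension {κ m : Cardinal.{u}} (hm : m.IsRegular) (hκ : κ ≤ m)
    {P : Cardinal.{u} → Prop} (hP : P m) (h : FilterExtension κ P) : CountablyMeasured m := by
  classical
  intro 𝒜 _
  let Z := m.ord.ToType
  have hZ : #Z = m := by simp [Z]
  let F : Filter Z :=
    { sets := {A | #(Aᶜ : Set Z) < m}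
      univ_sets := by
        show #((Set.univ : Set Z)ᶜ : Set Z) < m
        rw [Set.compl_univ, Cardinal.mk_eq_zero]
        exact Cardinal.aleph0_pos.trans_le hm.aleph0_le
      sets_of_superset := by
        intro A A' hA hAA'
        exact (Cardinal.mk_le_mk_of_subset (Set.compl_subset_compl.2 hAA')).trans_lt hA
      inter_sets := by
        intro A A' hA hA'
        show #((A ∩ A')ᶜ : Set Z) < m
        rw [Set.compl_inter]
        exact (Cardinal.mk_union_le _ _).trans_lt (Cardinal.add_lt_of_lt hm.aleph0_le hA hA') }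
  have hF : ∀ A : Set Z, A ∈ F ↔ #(Aᶜ : Set Z) < m := fun A => Iff.rfl
  have hne : F.NeBot := by
    rw [Filter.neBot_iff, Ne, ← Filter.empty_mem_iff_bot, hF, Set.compl_empty,
      Cardinal.mk_univ, hZ]
    exact lt_irrefl _
  have hcomp : CardinalInterFilter F κ := by
    refine ⟨fun S hS hSF => ?_⟩
    have h1 : (⋂₀ S)ᶜ = ⋃ A : S, (A : Set Z)ᶜ := by
      rw [Set.compl_sInter, Set.sUnion_image, Set.biUnion_eq_iUnion]
    rw [hF, h1, Cardinal.card_iUnion_lt_iff_forall_of_isRegular hm (hS.trans_le hκ)]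
    exact fun A => hSF A A.2
  obtain ⟨U, hUF, hU⟩ := h Z F (hZ.symm ▸ hP) hne hcomp
  let val : Z → Ordinal.{u} := fun i => ((Ordinal.ToType.mk.symm i : Iio m.ord) : Ordinal.{u})
  refine ⟨(U.map val : Ultrafilter Ordinal.{u}), inferInstance, ?_, ?_, ?_, ?_⟩
  · rw [Ultrafilter.coe_map]
    infer_instance
  · rw [Ultrafilter.coe_map, Filter.mem_map]
    refine Filter.univ_mem' fun i => ?_
    exact (Ordinal.ToType.mk.symm i : Iio m.ord).2
  · intro γ hγ
    rw [Ultrafilter.coe_map, Filter.mem_map]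
    refine hUF ?_
    rw [hF]
    have h1 : Cardinal.lift.{u + 1} #((val ⁻¹' Ioi γ)ᶜ : Set Z) ≤ #(Iio (γ + 1)) := by
      have h4 : ∀ i : ((val ⁻¹' Ioi γ)ᶜ : Set Z), val i < γ + 1 := by
        rintro ⟨i, hi⟩
        have hi' : ¬ γ < val i := hi
        exact lt_of_le_of_lt (not_lt.1 hi') (lt_add_one γ)
      have h2 := Cardinal.lift_mk_le_lift_mk_of_injective
        (f := fun i : ((val ⁻¹' Ioi γ)ᶜ : Set Z) => (⟨val i, h4 i⟩ : Iio (γ + 1)))
        (fun i j hij => by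
          have h3 := Subtype.mk.inj hij
          exact Subtype.ext (Ordinal.ToType.mk.symm.injective (Subtype.ext h3)))
      rw [Cardinal.lift_id'.{u, u + 1}] at h2
      exact h2
    rw [Cardinal.mk_Iio_ordinal, Cardinal.lift_le] at h1
    exact h1.trans_lt (Cardinal.lt_ord.1 (add_one_lt_ord hm hγ))
  · intro A _
    exact (U.map val).mem_or_compl_mem A

/-- A weakly compact cardinal is measured. -/
theorem WeaklyCompact.countablyMeasured {c : Cardinal.{u}} (h : WeaklyCompact c) :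
    CountablyMeasured c := by
  intro 𝒜 h𝒜
  obtain ⟨F, h1, h2, h3⟩ := h.2 𝒜 h𝒜
  have h4 : ℵ₀ < Cardinal.lift.{u + 1} c := by
    rw [Cardinal.aleph0_lt_lift]
    exact h.1.aleph0_lt
  exact ⟨F, h1, h2.toCountableInterFilter F h4, h3⟩

end Pool.Agent.Helper154_Diamond
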