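import Pool.Agent.Helper154_Diamond.Guess

/-!
Simultaneous reflection of stationary sets at singular ordinals implies the diamond principle
at a strongly inaccessible cardinal.
-/

open Ordinal Cardinal Set Order

universe u

namespace Pool.Agent.Helper154_Diamond

theorem closure_pow {c : Cardinal.{u}} (hc : c.IsInaccessible) :
    ∀ β < c.ord, ((2 : Cardinal.{u}) ^ β.card).ord < c.ord := by
  intro β hβ
  rw [Cardinal.ord_lt_ord]
  exact hc.isStrongLimit.isStrongPrelimit (Cardinal.lt_ord.1 hβ)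

/-- Small sets meeting every unbounded set in a cofinal set at stationarily many places give
the diamond principle. -/
theorem diamond_of_small {c : Cardinal.{u}} (hc : c.IsInaccessible) (B : Set Ordinal.{u})
    (a : Ordinal.{u} → Set Ordinal.{u})
    (ha : ∀ X ⊆ Iio c.ord, (∀ ε < c.ord, ∃ ζ ∈ X, ε < ζ) →
      StatIn {α | α ∈ B ∧ α < c.ord ∧ #(a α) < #(Iio α) ∧
        ∀ ε < α, ∃ ζ ∈ X ∩ a α, ε < ζ ∧ ζ < α} c.ord) :
    DiamondOn B c.ord := by
  classical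
  have hreg := hc.isRegular
  have hω := hc.aleph0_lt
  have h1 : ∀ α : Ordinal.{u}, ∃ q : Ordinal.{u} → Set Ordinal.{u},
      #(Set (a α)) ≤ #(Iio α) → ∀ b ⊆ a α, ∃ i < α, q i = b := by
    intro α
    by_cases h : #(Set (a α)) ≤ #(Iio α)
    · obtain ⟨e⟩ := h
      refine ⟨fun i => {ζ | ∃ b : Set (a α), (e b : Ordinal.{u}) = i ∧ ζ ∈ Subtype.val '' b},
        fun _ b hb => ?_⟩
      refine ⟨e {x | (x : Ordinal.{u}) ∈ b}, (e _).2, ?_⟩
      ext ζ
      constructor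
      · rintro ⟨b', hb', ⟨x, hx, rfl⟩⟩
        have h2 := e.injective (Subtype.ext hb')
        rw [h2] at hx
        exact hx
      · intro hζ
        exact ⟨_, rfl, ⟨⟨ζ, hb hζ⟩, hζ, rfl⟩⟩
    · exact ⟨fun _ => ∅, fun h' => absurd h' h⟩
  choose q hq using h1
  refine diamond_of_guess hc B q fun K hK hKu => ?_
  have hcl := club_closure hreg hω (closure_pow hc)
  refine ((ha K hK hKu).inter_club hreg hω hcl).mono ?_
  rintro α ⟨⟨hαB, hα, hαa, hαK⟩, ⟨_, hαcl⟩⟩ _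
  have h2 : #(Set (a α)) ≤ #(Iio α) := by
    rw [Cardinal.mk_Iio_ordinal] at hαa ⊢
    obtain ⟨κ, hκα, hκ⟩ := Cardinal.lt_lift_iff.1 hαa
    rw [Cardinal.mk_set, ← hκ, ← Cardinal.lift_two_power, Cardinal.lift_le]
    have h3 : κ.ord < α := by
      by_contra h4
      push Not at h4
      have h5 := Ordinal.card_le_card h4
      rw [Cardinal.card_ord] at h5
      exact absurd hκα (not_lt.2 h5)
    have h4 := (hαcl _ h3).le
    have h5 := Ordinal.card_le_card h4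
    rwa [Cardinal.card_ord, Cardinal.card_ord] at h5
  obtain ⟨i, hi, hqi⟩ := hq α h2 (K ∩ a α) Set.inter_subset_right
  refine ⟨hαB, hα, i, hi, ?_, ?_⟩
  · rw [hqi]
    exact Set.inter_subset_left
  · rw [hqi]
    exact hαK

/-- Every limit ordinal has a club of size its cofinality. -/
theorem exists_small_club {α : Ordinal.{u}} (hlim : IsSuccLimit α) :
    ∃ C, ClubIn C α ∧ #C ≤ Cardinal.lift.{u + 1} α.cof := by
  obtain ⟨s, hs, hs'⟩ := Order.exists_cof_eq (Iio α)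
  rw [Ordinal.cof_Iio, ← Ordinal.lift_cof] at hs'
  set D : Set Ordinal.{u} := {x | ∃ d : Iio α, d ∈ s ∧ x = (d : Ordinal.{u}) + 1} with hD
  set L : Set Ordinal.{u} := {β | β < α ∧ β ≠ 0 ∧ ∀ ε < β, ∃ d ∈ D, ε < d ∧ d < β} with hL
  have hDα : ∀ x ∈ D, x < α := by
    rintro _ ⟨d, _, rfl⟩
    exact hlim.add_one_lt d.2
  refine ⟨D ∪ L, ⟨?_, ?_, ?_⟩, ?_⟩
  · rintro β (hβ | hβ)
    · exact hDα β hβ
    · exact hβ.1
  · intro β hβ
    obtain ⟨d, hd, hβd⟩ := hs ⟨β, hβ⟩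
    exact ⟨(d : Ordinal.{u}) + 1, Or.inl ⟨d, hd, rfl⟩, lt_of_le_of_lt hβd (lt_add_one _)⟩
  · intro β hβ h0 hβl
    refine Or.inr ⟨hβ, h0, ?_⟩
    intro ε hε
    obtain ⟨γ, hγ, hεγ, hγβ⟩ := hβl ε hε
    rcases hγ with hγ | ⟨_, _, hγ⟩
    · exact ⟨γ, hγ, hεγ, hγβ⟩
    · obtain ⟨d, hd, h1, h2⟩ := hγ ε hεγ
      exact ⟨d, hd, h1, h2.trans hγβ⟩
  · have hDs : #D ≤ #s := by
      have h1 : D ⊆ Set.range (fun d : s => ((d : Iio α) : Ordinal.{u}) + 1) := by
        rintro _ ⟨d, hd, rfl⟩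
        exact ⟨⟨d, hd⟩, rfl⟩
      exact (Cardinal.mk_le_mk_of_subset h1).trans Cardinal.mk_range_le
    -- the least element of `s` above a given ordinal
    have hm : ∀ β : Ordinal.{u}, ∃ d : s, β < α → β ≤ ((d : Iio α) : Ordinal.{u}) ∧
        ∀ d' ∈ s, β ≤ (d' : Ordinal.{u}) → ((d : Iio α) : Ordinal.{u}) ≤ d' := by
      intro β
      by_cases hβ : β < α
      · obtain ⟨d, hd, hβd⟩ := hs ⟨β, hβ⟩
        have hne : {x : Ordinal.{u} | ∃ d : Iio α, d ∈ s ∧ x = d ∧ β ≤ x}.Nonempty :=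
          ⟨d, d, hd, rfl, hβd⟩
        obtain ⟨d0, hd0, hd0', hβd0⟩ := csInf_mem hne
        refine ⟨⟨d0, hd0⟩, fun _ => ⟨?_, ?_⟩⟩
        · rw [hd0'] at hβd0
          exact hβd0
        · intro d' hd' hβd'
          rw [← hd0']
          exact csInf_le' ⟨d', hd', rfl, hβd'⟩
      · have hpos : (0 : Ordinal.{u}) < α := hlim.bot_lt
        obtain ⟨d, hd, _⟩ := hs ⟨0, hpos⟩
        exact ⟨⟨d, hd⟩, fun h => absurd h hβ⟩
    choose m hm using hm
    have hkey : ∀ β ∈ L, ∀ γ ∈ L, β < γ → m β ≠ m γ := by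
      intro β hβ γ hγ hlt heq
      obtain ⟨_, ⟨d, hd, rfl⟩, h1, h2⟩ := hγ.2.2 β hlt
      have h3 : β ≤ (d : Ordinal.{u}) := by
        by_contra h4
        push Not at h4
        have h5 : (d : Ordinal.{u}) + 1 ≤ β := by
          rw [← Order.succ_eq_add_one]
          exact Order.succ_le_of_lt h4
        exact absurd h1 (not_lt.2 h5)
      have h4 := (hm β hβ.1).2 d hd h3
      have h5 := (hm γ hγ.1).1
      rw [← heq] at h5
      have h6 : (d : Ordinal.{u}) < γ := (lt_add_one _).trans h2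
      exact absurd (h5.trans h4) (not_le.2 h6)
    have hLs : #L ≤ #s := by
      refine Cardinal.mk_le_of_injective (f := fun β : L => m β) ?_
      intro β γ heq
      rcases lt_trichotomy (β : Ordinal.{u}) γ with h | h | h
      · exact absurd heq (hkey β β.2 γ γ.2 h)
      · exact Subtype.ext h
      · exact absurd heq.symm (hkey γ γ.2 β β.2 h)
    refine (Cardinal.mk_union_le D L).trans ?_
    rw [← hs']
    refine Cardinal.add_le_of_le ?_ hDs hLs
    rw [hs', Cardinal.aleph0_le_lift, Ordinal.aleph0_le_cof_iff, Ordinal.one_lt_cof_iff]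
    exact hlim

/-- Simultaneous reflection at singular ordinals implies the diamond principle. -/
theorem diamond_of_reflection {c : Cardinal.{u}} (hc : c.IsInaccessible)
    {B : Set Ordinal.{u}} (hB : B ⊆ SingularOrd)
    (hR : ReflectsOn B c.ord) : DiamondOn B c.ord := by
  classical
  have hreg := hc.isRegular
  have hω := hc.aleph0_lt
  obtain ⟨T, hT, hTω, hTd⟩ := exists_split hreg hω
  have hcl0 : ∀ α : Ordinal.{u}, ∃ C, IsSuccLimit α →
      ClubIn C α ∧ #C ≤ Cardinal.lift.{u + 1} α.cof := by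
    intro α
    by_cases hα : IsSuccLimit α
    · obtain ⟨C, hC⟩ := exists_small_club hα
      exact ⟨C, fun _ => hC⟩
    · exact ⟨∅, fun h => absurd h hα⟩
  choose e he using hcl0
  refine diamond_of_small hc B (fun α => {ξ | ξ < α ∧ (T ξ ∩ e α).Nonempty})
    fun X hX hXu => ?_
  intro E hE
  have hcl2 := club_closure hreg hω (closure_pow hc)
  set E' := E ∩ {α | α < c.ord ∧ ∀ β < α, ((2 : Cardinal.{u}) ^ β.card).ord < α} with hE'
  have hclub : ClubIn E' c.ord := club_inter hreg hω hE hcl2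
  have hlimc : IsSuccLimit c.ord := isSuccLimit_ord hreg.aleph0_le
  obtain ⟨α, hαB, hα, hαS⟩ := hR (fun η => {ε | ε ∈ E' ∧ ∃ ξ ∈ X, η ≤ ξ ∧ ξ < ε ∧ ε ∈ T ξ})
    (fun η hη => by
      obtain ⟨ξ, hξ, hηξ⟩ := hXu η hη
      have hξc : ξ < c.ord := hX hξ
      refine ⟨?_, ?_⟩
      · refine (((hT ξ hξc).inter_club hreg hω hclub).inter_club hreg hω
          (club_tail hlimc hξc)).mono ?_
        rintro ε ⟨⟨h1, h2⟩, h3, _⟩ _
        exact ⟨h2, ξ, hξ, hηξ.le, h3, h1⟩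
      · rintro ε ⟨_, ζ, _, _, _, h⟩
        exact hTω _ h)
    (fun η _ ζ hζ ε hε => by
      obtain ⟨h1, ξ, h2, h3, h4⟩ := hε
      exact ⟨h1, ξ, h2, hζ.le.trans h3, h4⟩)
  obtain ⟨hlim, hsing⟩ := hB hαB
  have hα0 : (0 : Ordinal.{u}) < α := hlim.bot_lt
  have hαE : α ∈ E' := by
    refine hclub.2.2 α hα hα0.ne' fun ε hε => ?_
    obtain ⟨β, hβ, h1, h2⟩ := (hαS 0 hα0).unbounded hlim hε
    exact ⟨β, hβ.1, h1, h2⟩
  obtain ⟨heα, heα'⟩ := he α hlim
  refine ⟨α, ⟨hαB, hα, ?_, ?_⟩, hαE.1⟩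
  · have h1 : #{ξ | ξ < α ∧ (T ξ ∩ e α).Nonempty} ≤ #(e α) := by
      have h2 : ∀ ξ : {ξ | ξ < α ∧ (T ξ ∩ e α).Nonempty}, ∃ ε : e α, (ε : Ordinal.{u}) ∈ T ξ := by
        rintro ⟨ξ, _, ε, hε, hε'⟩
        exact ⟨⟨ε, hε'⟩, hε⟩
      choose b hb using h2
      refine Cardinal.mk_le_of_injective (f := b) ?_
      intro ξ ζ heq
      by_contra hne
      have h3 : (ξ : Ordinal.{u}) ≠ ζ := fun h => hne (Subtype.ext h)
      have h4 := hTd ξ (ξ.2.1.trans hα) ζ (ζ.2.1.trans hα) h3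
      exact Set.disjoint_left.1 h4 (hb ξ) (heq ▸ hb ζ)
    refine lt_of_le_of_lt (h1.trans heα') ?_
    rw [Cardinal.mk_Iio_ordinal, Cardinal.lift_lt]
    have h1 := (hαE.2.2 _ hsing).le
    rw [Cardinal.card_ord] at h1
    have h2 := Ordinal.card_le_card h1
    rw [Cardinal.card_ord] at h2
    exact (Cardinal.cantor _).trans_le h2
  · intro η hη
    obtain ⟨ε, ⟨_, ξ, hξX, hηξ, hξε, hξT⟩, hεe⟩ := hαS (η + 1) (hlim.add_one_lt hη) (e α) heα
    have hεα : ε < α := heα.1 hεe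
    refine ⟨ξ, ⟨hξX, hξε.trans hεα, ε, hξT, hεe⟩, ?_, hξε.trans hεα⟩
    exact (lt_add_one η).trans_le hηξ

end Pool.Agent.Helper154_Diamond
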